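import Pool.Agent.Q34.SGA.Main

/-!
# Small gaps between ordinates of zeta zeros in arithmetic progressions of indices, unconditionally

A gap `γ_(n+1) - γ_n` is called small if it is less than `c` mean spacings `2π / log T`. The parameters are
`0 < θ ≤ 1` and `c > 2 / (2 + θ)`, or `999/1000 < θ ≤ 1` and `c = 9/16`; for them the starting files prove that a
positive proportion of the gaps in every interval `[t0, t0 + H]` inside `[T, 2T]` with `H ≥ T^θ` is small.

(1) For every `k` a positive proportion of all pairs `(n, d)` with `d ≤ D` begins a progression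
`n, n + d, …, n + (k - 1) d` of indices of small gaps in the interval, uniformly for `(log T)^B ≤ D ≤ H log T`.

(2) Among any `M` indices `e ≤ H log T` there are two, `e < e'`, such that a positive proportion of the indices `n` is
such that the gaps at `n` and at `n + (e' - e)` are both small: the set of the differences at which small gaps recur
with positive density meets the difference set of every set of `M` integers; it has bounded gaps.

Input: the positive proportion of small gaps (`W192.PP.pos_prop`, `TH299.PG.pos_prop2`), the theorem of Szemerédi with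
narrow differences (`Y843.AC.cnt_all` with nothing sifted out) and the upper bound for the number of zeros.
-/

set_option autoImplicit false

namespace Pool.Agent.Results.MP_ca0a54_nt.ArithmeticProgressions

/-- multiplicity of `s` as a zero of the Riemann zeta function (order of vanishing at `s`) -/
noncomputable def zmult (s : ℂ) : ℕ := analyticOrderNatAt riemannZeta s

/-- the number of nontrivial zeros of `ζ` with ordinate in `(0, t]`, with multiplicity -/
noncomputable def NZ (t : ℝ) : ℕ :=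
  ∑ᶠ s ∈ {s : ℂ | riemannZeta s = 0 ∧ 0 < s.re ∧ s.re < 1 ∧ 0 < s.im ∧ s.im ≤ t}, zmult s

/-- for `n ≥ 1`: the `n`-th positive ordinate `γ_n` of a nontrivial zero of `ζ`, the ordinates
being listed in nondecreasing order and repeated according to multiplicity -/
noncomputable def ord (n : ℕ) : ℝ := sInf {t : ℝ | n ≤ NZ t}

/-- the indices `n` with `t0 ≤ γ_n`, `γ_(n+1) ≤ t0 + H` and `γ_(n+1) - γ_n < c (2π / log T)` -/
def Small (c T t0 H : ℝ) : Set ℕ :=
  {n : ℕ | 1 ≤ n ∧ t0 ≤ ord n ∧ ord (n + 1) ≤ t0 + H ∧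
    ord (n + 1) - ord n < c * (2 * Real.pi / Real.log T)}

/-- the admissible parameters -/
def Par (θ c : ℝ) : Prop := (0 < θ ∧ θ ≤ 1 ∧ 2 / (2 + θ) < c) ∨ (999 / 1000 < θ ∧ θ ≤ 1 ∧ c = 9 / 16)

/-- Progressions and recurrence of small gaps in every short interval. -/
theorem result : ∀ θ c : ℝ, Par θ c →
    (∀ k : ℕ, 1 ≤ k → ∃ c' : ℝ, 0 < c' ∧ ∃ B : ℕ, ∃ T0 : ℝ,
      ∀ T t0 H : ℝ, T0 ≤ T → T ≤ t0 → t0 + H ≤ 2 * T → T ^ θ ≤ H →
      ∀ D : ℕ, Real.log T ^ B ≤ D → (D : ℝ) ≤ H * Real.log T →
        c' * (H * Real.log T) * D ≤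
          ({p : ℕ × ℕ | 1 ≤ p.2 ∧ p.2 ≤ D ∧ ∀ j < k, p.1 + j * p.2 ∈ Small c T t0 H}.ncard : ℝ)) ∧
    (∃ c' : ℝ, 0 < c' ∧ ∃ M : ℕ, ∃ T0 : ℝ,
      ∀ T t0 H : ℝ, T0 ≤ T → T ≤ t0 → t0 + H ≤ 2 * T → T ^ θ ≤ H →
      ∀ E : Finset ℕ, M ≤ E.card → (∀ e ∈ E, (e : ℝ) ≤ H * Real.log T) →
        ∃ e ∈ E, ∃ e' ∈ E, e < e' ∧ c' * (H * Real.log T) ≤
          ({n : ℕ | n ∈ Small c T t0 H ∧ n + (e' - e) ∈ Small c T t0 H}.ncard : ℝ)) := by
  intro θ c h
  exact ⟨fun k hk => Pool.Agent.Q34.SGA.progressions h k hk, Pool.Agent.Q34.SGA.recurrence h⟩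

end Pool.Agent.Results.MP_ca0a54_nt.ArithmeticProgressions
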