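import Pool.Agent.Results.MP_ca0a54_nt.AlmostAllIntervals
import Pool.Agent.Q233.ZG.Base

/-!
# Small gaps between the zeros of zeta in ALL short intervals at the heights given by continued fractions

Let `0 < δ` and `0 < ε`. An integer `m` has the property `SmallGaps δ ε` if for ALL real `t` with `m ≤ t < m + 1` and ALL
`H` with `exp (log ^ δ m) ≤ H ≤ m` the interval `[t, t + H]` contains two consecutive ordinates of nontrivial zeros of
`ζ` at a distance of at most `(1 + ε) 4 π / log (m ^ 3 H)`; for `H = m ^ θ` this is `(1 + ε) 2 / (3 + θ)` times the mean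
spacing `2 π / log m`, and for the shortest of the intervals `(1 + ε) 2 / 3` times it.

For almost every real number `α`, for all integers `(u, v) ≠ (0, 0)` and all but finitely many convergents `p / q` of the
continued fraction of `α`, the integer `|u p + v q|` has this property; and for almost every point of `ℝ ^ d` the same
holds for all linear forms in the denominators and numerators of the simultaneous rational approximations of the quality
of Dirichlet's theorem (up to powers of the logarithm). The exceptional integers up to `X` are at most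
`C X / (log X) ^ U`, for every `U`.
-/

set_option autoImplicit false

namespace Pool.Agent.Results.MP_ca0a54_nt.GoodApproximations

open Pool.Agent.Results.MP_ca0a54_nt.AlmostAllIntervals (ord)
open Pool.Agent.Q44.CF (AtDirichletApproximations atLog_of)
open Pool.Agent.Q233.ZG

/-- For ALL real `t` with `m ≤ t < m + 1` and ALL `H` with `exp (log ^ δ m) ≤ H ≤ m` the interval `[t, t + H]` contains two
consecutive ordinates of nontrivial zeros of `ζ` at a distance of at most `(1 + ε) 4 π / log (m ^ 3 H)`. -/
def SmallGaps (δ ε : ℝ) (m : ℕ) : Prop :=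
  ∀ t H : ℝ, (m : ℝ) ≤ t → t < m + 1 → Real.exp (Real.log m ^ δ) ≤ H → H ≤ m →
    ∃ n : ℕ, 1 ≤ n ∧ t ≤ ord n ∧ ord n ≤ ord (n + 1) ∧ ord (n + 1) ≤ t + H ∧
      ord (n + 1) - ord n ≤ (1 + ε) * (4 * Real.pi / Real.log ((m : ℝ) ^ 3 * H))

/-- the input, from `AlmostAllIntervals` -/
theorem hyp : Hyp ord 39 := fun B => AlmostAllIntervals.result.1 B

/-- **Theorem.** Let `δ, ε > 0`. (1) For every `U` the number of the positive integers up to `N` without the property
`SmallGaps δ ε` is at most `C N / (log N) ^ U` (`N ≥ 2`). (2) The property holds at the linear forms in the denominators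
and the numerators of the good rational approximations of almost all numbers and points, in the sense of
`AtDirichletApproximations`: in particular for almost every real number `α`, for all integers `u` and `v`, not both zero,
and all but finitely many convergents `p / q` of `α`, for `|u p + v q|`. -/
theorem result (δ ε : ℝ) (hδ : 0 < δ) (hε : 0 < ε) :
    (∀ U : ℝ, ∃ C : ℝ, ∀ N : ℕ, 2 ≤ N →
      ({m : ℕ | 1 ≤ m ∧ m ≤ N ∧ ¬ SmallGaps δ ε m}.ncard : ℝ) ≤ C * N / (Real.log N) ^ U) ∧
    AtDirichletApproximations (SmallGaps δ ε) := by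
  classical
  have h := logFew ord 39 hyp δ ε hδ hε 0
  refine ⟨fun U => ?_, atLog_of h fun n hn => Or.inl hn⟩
  obtain ⟨C, hC⟩ := h U
  refine ⟨C, fun N hN => ?_⟩
  have hfin : {m : ℕ | 1 ≤ m ∧ m ≤ N ∧ ¬ SmallGaps δ ε m}.Finite :=
    (Set.finite_Icc 1 N).subset fun m hm => ⟨hm.1, hm.2.1⟩
  rw [Set.ncard_eq_toFinset_card _ hfin]
  refine hC N hN _ fun m hm => ?_
  rw [Set.Finite.mem_toFinset] at hm
  exact ⟨hm.1, hm.2.1, Or.inl hm.2.2⟩

end Pool.Agent.Results.MP_ca0a54_nt.GoodApproximations
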