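import Pool.Agent.Results.MP_ca0a54_nt.GoodApproximations
import Pool.Agent.Q319.DR.Lac

/-!
# Small gaps between the zeros of zeta in ALL short intervals near the multiples of almost every real number

Let `δ, ε > 0`. As in `GoodApproximations` an integer `q` has the property `SmallGaps δ ε` if for ALL real `t` with
`q ≤ t < q + 1` and ALL `H` with `exp (log ^ δ q) ≤ H ≤ q` the interval `[t, t + H]` contains two consecutive ordinates of
nontrivial zeros of `ζ` at a distance of at most `(1 + ε) 4 π / log (q ^ 3 H)`.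

1. Let `0 < θ < 1`. There is `κ > 0` such that for all `A`, `U` and all large `N`, for all real `y` in
   `[N ^ (1 - θ), 2 N ^ (1 - θ)]` outside a set of measure at most `N ^ (1 - θ - κ)`, for all `k ≤ N ^ θ` but at most
   `N ^ θ / log ^ U N`, ALL natural numbers `q` with `|q - k y| ≤ log ^ A N` have the property.
2. For every sequence of natural numbers `b_k ≥ exp (k ^ η)`, `η > 0`, and almost every `α > 0`, for all large `k` ALL
   natural numbers `q` with `|q - α b_k| ≤ log ^ A b_k` have the property.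
-/

set_option autoImplicit false

namespace Pool.Agent.Results.MP_ca0a54_nt.SmallGapsAtRealMultiples

open Finset MeasureTheory Filter
open Pool.Agent.Results.MP_ca0a54_nt.GoodApproximations (SmallGaps)
open Pool.Agent.Q319.DR (Sparse mult_few lac_all)

open Classical in
/-- the number of the `k` with `1 ≤ k ≤ K` such that some natural number `q` with `|q - k y| ≤ w` does not have the
property `SmallGaps δ ε` -/
noncomputable def exceptions (δ ε K y w : ℝ) : ℕ :=
  ((Icc 1 ⌊K⌋₊).filter (fun k : ℕ => ∃ q : ℕ, |(q : ℝ) - k * y| ≤ w ∧ ¬ SmallGaps δ ε q)).card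

lemma sparse (δ ε : ℝ) (hδ : 0 < δ) (hε : 0 < ε) : Sparse (fun _ q => ¬ SmallGaps δ ε q) := by
  classical
  intro B U
  rcases Nat.eq_zero_or_pos B with rfl | hB
  · refine ⟨2, fun N hN S hS _ => ?_⟩
    have h1 : S = ∅ := by
      rw [eq_empty_iff_forall_notMem]
      intro x hx
      have := mem_Icc.1 (hS hx)
      omega
    rw [h1]
    have h2 : (2 : ℝ) ≤ N := by exact_mod_cast hN
    have h3 : 0 < Real.log N := Real.log_pos (by linarith)
    simp only [card_empty, Nat.cast_zero]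
    positivity
  obtain ⟨C, hC⟩ := (GoodApproximations.result δ ε hδ hε).1 ((U + 1 : ℕ) : ℝ)
  obtain ⟨N₀, h0⟩ := eventually_atTop.1
    ((Real.tendsto_log_atTop.comp tendsto_natCast_atTop_atTop).eventually_ge_atTop (max 1 (|C| * B)))
  refine ⟨N₀ + 2, fun N hN S hS hSb => ?_⟩
  have hl := h0 N (by omega)
  simp only [Function.comp_apply] at hl
  have hl1 : 1 ≤ Real.log N := (le_max_left _ _).trans hl
  have hlC : |C| * B ≤ Real.log N := (le_max_right _ _).trans hl
  have hN2 : (2 : ℝ) ≤ N := by exact_mod_cast (by omega : 2 ≤ N)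
  have hBN : N ≤ B * N := Nat.le_mul_of_pos_left N hB
  have h1 := hC (B * N) (by omega)
  have h2 : (S.card : ℝ) ≤ ({m : ℕ | 1 ≤ m ∧ m ≤ B * N ∧ ¬ SmallGaps δ ε m}.ncard : ℝ) := by
    rw [← Set.ncard_coe_finset]
    refine Nat.cast_le.2 (Set.ncard_le_ncard ?_ ((Set.finite_Icc 1 (B * N)).subset fun m hm => ⟨hm.1, hm.2.1⟩))
    intro m hm
    have h3 := mem_Icc.1 (hS (Finset.mem_coe.1 hm))
    exact ⟨h3.1, h3.2, hSb m (Finset.mem_coe.1 hm)⟩
  have h3 : Real.log N ≤ Real.log ((B * N : ℕ) : ℝ) :=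
    Real.log_le_log (by linarith) (by exact_mod_cast hBN)
  have h4 : Real.log N ^ (U + 1) ≤ Real.log ((B * N : ℕ) : ℝ) ^ (U + 1) :=
    pow_le_pow_left₀ (by linarith) h3 _
  rw [Real.rpow_natCast] at h1
  have hpos : 0 < Real.log N ^ (U + 1) := by positivity
  calc (S.card : ℝ) ≤ C * ((B * N : ℕ) : ℝ) / Real.log ((B * N : ℕ) : ℝ) ^ (U + 1) := h2.trans h1
    _ ≤ |C| * ((B * N : ℕ) : ℝ) / Real.log ((B * N : ℕ) : ℝ) ^ (U + 1) := by
        refine div_le_div_of_nonneg_right ?_ (hpos.le.trans h4)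
        exact mul_le_mul_of_nonneg_right (le_abs_self C) (Nat.cast_nonneg _)
    _ ≤ |C| * ((B * N : ℕ) : ℝ) / Real.log N ^ (U + 1) :=
        div_le_div_of_nonneg_left (by positivity) hpos h4
    _ = (|C| * B) * N / Real.log N ^ (U + 1) := by push_cast; ring
    _ ≤ Real.log N * N / Real.log N ^ (U + 1) := by
        refine div_le_div_of_nonneg_right ?_ hpos.le
        exact mul_le_mul_of_nonneg_right hlC (by linarith)
    _ = N / Real.log N ^ U := by
        rw [pow_succ]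
        field_simp

/-- **Theorem.** Let `δ, ε > 0`.
1. Let `0 < θ < 1`. There is `κ > 0` such that for all `A`, `U` and all large `N` there is a set `E` of measure at most
   `N ^ (1 - θ - κ)` such that for all real `y` with `N ^ (1 - θ) ≤ y ≤ 2 N ^ (1 - θ)` which are not in `E`, for all
   `k ≤ N ^ θ` but at most `N ^ θ / log ^ U N`, ALL natural numbers `q` with `|q - k y| ≤ log ^ A N` have the property
   `SmallGaps δ ε`.
2. For every `A`, every sequence of natural numbers `b_k ≥ exp (k ^ η)` (`k` large), `η > 0`, and almost every `α > 0`,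
   for all large `k` ALL natural numbers `q` with `|q - α b_k| ≤ log ^ A b_k` have the property `SmallGaps δ ε`. -/
theorem result (δ ε : ℝ) (hδ : 0 < δ) (hε : 0 < ε) :
    (∀ θ : ℝ, 0 < θ → θ < 1 → ∃ κ : ℝ, 0 < κ ∧ ∀ A U : ℕ, ∃ N₀ : ℕ, ∀ N : ℕ, N₀ ≤ N →
      ∃ E : Set ℝ, MeasurableSet E ∧ volume E ≤ ENNReal.ofReal ((N : ℝ) ^ (1 - θ - κ)) ∧
        ∀ y : ℝ, (N : ℝ) ^ (1 - θ) ≤ y → y ≤ 2 * (N : ℝ) ^ (1 - θ) → y ∉ E →
          (exceptions δ ε ((N : ℝ) ^ θ) y (Real.log N ^ A) : ℝ) ≤ (N : ℝ) ^ θ / Real.log N ^ U) ∧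
    (∀ (A : ℕ) (b : ℕ → ℕ) (η : ℝ), 0 < η → (∀ᶠ k : ℕ in atTop, Real.exp ((k : ℝ) ^ η) ≤ b k) →
      ∀ᵐ α : ℝ, 0 < α → ∀ᶠ k : ℕ in atTop, ∀ q : ℕ, |(q : ℝ) - α * b k| ≤ Real.log (b k) ^ A →
        SmallGaps δ ε q) := by
  classical
  refine ⟨fun θ hθ hθ1 => ?_, fun A b η hη hb => ?_⟩
  · obtain ⟨κ, hκ, h⟩ := mult_few θ hθ hθ1
    refine ⟨κ, hκ, fun A U => ?_⟩
    obtain ⟨N₀, h1⟩ := h _ (sparse δ ε hδ hε) A U
    refine ⟨N₀, fun N hN => ?_⟩
    obtain ⟨E, hE1, hE2, hE3⟩ := h1 N hN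
    refine ⟨E, hE1, hE2, fun y hy1 hy2 hyE => ?_⟩
    unfold exceptions
    exact hE3 y hy1 hy2 hyE
  · filter_upwards [lac_all _ (sparse δ ε hδ hε) A b η hη hb] with α hα hα0
    filter_upwards [hα hα0] with k hk q hq
    exact not_not.1 (hk q hq)

end Pool.Agent.Results.MP_ca0a54_nt.SmallGapsAtRealMultiples
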